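import Pool.Agent.H698.HF.Core
import Pool.Graph.R_pool_sql_team_seeded_47a924f7.T6.H87.M1.Main

set_option autoImplicit false

/-! # Reductions of the clique problem by circuits with unknown inputs (helper698) -/

namespace Pool.Agent.H698.UM

open Finset Filter
open Pool.Agent.H698.HF
open Pool.Agent.T6.H87.M1 (Gate Circuit Output Reduces Lower Pairs Questions clique_lower
  m1_general)
open Pool.Agent.W969.MC (grf)
open Pool.Agent.H679R2.M1 (Clause Sat)

section add

variable {P : Type}

/-- the gate in a circuit with one more gate -/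
def lift {s : ℕ} (g : Gate P s) : Gate P (s + 1) where
  wires := g.wires
  source := fun j => Sum.map id Fin.castSucc (g.source j)
  op := g.op
  level := g.level

/-- the gates of the new circuit -/
def gates (C : Circuit P) (g : Gate P C.s) : Fin (C.s + 1) → Gate P (C.s + 1) :=
  Fin.snoc (α := fun _ => Gate P (C.s + 1)) (fun i => lift (C.gate i)) (lift g)

theorem gates_last (C : Circuit P) (g : Gate P C.s) : gates C g (Fin.last C.s) = lift g := by
  unfold gates
  rw [Fin.snoc_last]

theorem gates_castSucc (C : Circuit P) (g : Gate P C.s) (i : Fin C.s) :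
    gates C g i.castSucc = lift (C.gate i) := by
  unfold gates
  rw [Fin.snoc_castSucc]

theorem lift_source {s : ℕ} (g : Gate P s) (j : Fin (lift g).wires) (k : Fin (s + 1))
    (h : (lift g).source j = Sum.inr k) : ∃ k', g.source j = Sum.inr k' ∧ k'.castSucc = k := by
  change Sum.map id Fin.castSucc (g.source j) = Sum.inr k at h
  rcases hs : g.source j with p | k'
  · rw [hs] at h
    simp at h
  · rw [hs] at h
    exact ⟨k', rfl, by simpa using h⟩

/-- the circuit with one more gate -/
noncomputable def add (C : Circuit P) (g : Gate P C.s) : Circuit P where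
  s := C.s + 1
  gate := gates C g
  free := ∅
  val := fun x => Fin.snoc (α := fun _ => ℝ) (C.val x)
    (g.op fun j => Sum.elim (fun p => if x p = true then (1 : ℝ) else 0) (C.val x) (g.source j))
  earlier := by
    intro i
    refine Fin.lastCases ?_ (fun i => ?_) i
    · rw [gates_last]
      intro j k h
      obtain ⟨k', -, rfl⟩ := lift_source g j k h
      exact Fin.castSucc_lt_last _
    · rw [gates_castSucc]
      intro j k h
      obtain ⟨k', h2, rfl⟩ := lift_source _ j k h
      exact Fin.castSucc_lt_castSucc_iff.2 (C.earlier i j k' h2)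
  digital := by
    intro i hi
    simp at hi
  spec := by
    intro x i
    refine Fin.lastCases ?_ (fun i => ?_) i
    · rw [gates_last, Fin.snoc_last]
      show g.op _ = g.op _
      congr 1
      funext j
      show Sum.elim _ _ (g.source j) = Sum.elim _ _ (Sum.map id Fin.castSucc (g.source j))
      rcases g.source j with p | k'
      · rfl
      · simp only [Sum.map_inr, Sum.elim_inr, Fin.snoc_castSucc]
    · rw [gates_castSucc, Fin.snoc_castSucc, C.spec x i]
      show (C.gate i).op _ = (C.gate i).op _
      congr 1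
      funext j
      show _ = Sum.elim _ _ (Sum.map id Fin.castSucc ((C.gate i).source j))
      rcases (C.gate i).source j with p | k'
      · rfl
      · simp only [Sum.map_inr, Sum.elim_inr, Fin.snoc_castSucc]

/-- the functions in the list are computed by the gates of a circuit of this size -/
def Pr (P : Type) (l : List ((P → Bool) → ℝ)) : Prop :=
  ∃ C : Circuit P, C.free = ∅ ∧ (∀ i, (C.gate i).wires ≤ 2 ∧ Monotone (C.gate i).op) ∧
    C.s = l.length ∧ ∀ f ∈ l, ∃ i : Fin C.s, ∀ x, C.val x i = f x

theorem pr_nil : Pr P [] :=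
  ⟨⟨0, Fin.elim0, ∅, fun _ => Fin.elim0, fun i => i.elim0, fun i => i.elim0, fun _ i => i.elim0⟩,
    rfl, fun i => i.elim0, rfl, fun f hf => absurd hf (by simp)⟩

theorem pr_add {l : List ((P → Bool) → ℝ)} (C : Circuit P)
    (h2 : ∀ i, (C.gate i).wires ≤ 2 ∧ Monotone (C.gate i).op)
    (h3 : C.s = l.length) (h4 : ∀ f ∈ l, ∃ i : Fin C.s, ∀ x, C.val x i = f x)
    (g : Gate P C.s) (hg : g.wires ≤ 2) (hg2 : Monotone g.op) (f : (P → Bool) → ℝ)
    (hf : ∀ x, f x = g.op fun j =>
      Sum.elim (fun p => if x p = true then (1 : ℝ) else 0) (C.val x) (g.source j)) :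
    Pr P (f :: l) := by
  refine ⟨add C g, rfl, fun i => ?_, ?_, fun f' hf' => ?_⟩
  · show (gates C g i).wires ≤ 2 ∧ Monotone (gates C g i).op
    refine Fin.lastCases ?_ (fun i => ?_) i
    · rw [gates_last]
      exact ⟨hg, hg2⟩
    · rw [gates_castSucc]
      exact h2 i
  · show C.s + 1 = _
    rw [List.length_cons, h3]
  · rcases List.mem_cons.1 hf' with rfl | hf'
    · refine ⟨Fin.last C.s, fun x => ?_⟩
      show Fin.snoc (α := fun _ => ℝ) (C.val x) _ (Fin.last C.s) = _
      rw [Fin.snoc_last, hf]
    · obtain ⟨i, hi⟩ := h4 f' hf'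
      refine ⟨i.castSucc, fun x => ?_⟩
      show Fin.snoc (α := fun _ => ℝ) (C.val x) _ i.castSucc = _
      rw [Fin.snoc_castSucc, hi]

theorem pr_bit {l : List ((P → Bool) → ℝ)} (e : P) (h : Pr P l) :
    Pr P ((fun x => if x e = true then 1 else 0) :: l) := by
  obtain ⟨C, -, h2, h3, h4⟩ := h
  refine pr_add C h2 h3 h4 ⟨1, fun _ => Sum.inl e, fun z => z 0, fun _ => 0⟩ (by norm_num)
    (fun z z' hz => hz 0) _ fun x => ?_
  simp only [Sum.elim_inl]

theorem pr_const {l : List ((P → Bool) → ℝ)} (c : ℝ) (h : Pr P l) : Pr P ((fun _ => c) :: l) := by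
  obtain ⟨C, -, h2, h3, h4⟩ := h
  exact pr_add C h2 h3 h4 ⟨0, Fin.elim0, fun _ => c, Fin.elim0⟩ (by norm_num)
    (fun z z' hz => le_rfl) _ fun x => rfl

theorem pr_gate {l : List ((P → Bool) → ℝ)} (Φ : ℝ → ℝ → ℝ) (F G : (P → Bool) → ℝ) (h : Pr P l)
    (hΦ : ∀ a a' b b', a ≤ a' → b ≤ b' → Φ a b ≤ Φ a' b') (hF : F ∈ l) (hG : G ∈ l) :
    Pr P ((fun x => Φ (F x) (G x)) :: l) := by
  obtain ⟨C, -, h2, h3, h4⟩ := h
  obtain ⟨i, hi⟩ := h4 F hF
  obtain ⟨j, hj⟩ := h4 G hG
  refine pr_add C h2 h3 h4 ⟨2, ![Sum.inr i, Sum.inr j], fun z => Φ (z 0) (z 1), fun _ => 0⟩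
    (by norm_num) (fun z z' hz => hΦ _ _ _ _ (hz 0) (hz 1)) _ fun x => ?_
  simp [hi, hj]

end add

/-- the bits of a graph -/
def ed {n : ℕ} (x : Pairs n → Bool) (e : Pairs n) : Prop := x e = true

/-- all outputs of a circuit with unknown inputs, on inputs without known absent bits, are output
bits of a monotone real circuit of the same size -/
theorem sim_outputs {n : ℕ} {D : Type} [PartialOrder D] (hD : TreeLike D)
    {l : List (Know (Pairs n) → D)} (hl : Circ l) {O : Type} (out : O → Know (Pairs n) → D)
    (hout : ∀ o, out o ∈ l) (acc : O → Set D) (hacc : ∀ o, IsUpperSet (acc o))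
    (neg : O → Bool) :
    ∃ (C : Circuit (Pairs n)) (out' : O → Output C), C.Uses 2 0 0 ∧ C.size = l.length ∧
      C.freedom = 1 ∧ ∀ (o : O) (x : Pairs n → Bool), (out' o).bit x =
        (open Classical in xor (neg o) (decide (out o (truths (ed x)) ∈ acc o))) := by
  classical
  obtain ⟨l', ⟨C, c1, c2, c3, c4⟩, g2, g3⟩ := simulate hD (fun x : Pairs n → Bool => ed x)
    (Pr (Pairs n)) pr_nil (fun l' e hl' => by
      have h := pr_bit e hl'
      unfold ed
      convert h) (fun l' c hl' => pr_const c hl')
    (fun l' Φ F G hl' hΦ hF hG => pr_gate Φ F G hl' hΦ hF hG) hl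
  have key : ∀ o : O, ∃ (i : Fin C.s) (τ : ℝ), ∀ x, τ ≤ C.val x i ↔
      out o (truths (ed x)) ∈ acc o := by
    intro o
    obtain ⟨F, hF, hF'⟩ := g3 (out o) (hout o)
    obtain ⟨i, hi⟩ := c4 F hF
    refine ⟨i, ?_⟩
    by_cases hne : ∃ x, out o (truths (ed x)) ∈ acc o
    · have hne' : (univ.filter fun x => out o (truths (ed x)) ∈ acc o).Nonempty := by
        obtain ⟨x, hx⟩ := hne
        exact ⟨x, mem_filter.2 ⟨mem_univ _, hx⟩⟩
      obtain ⟨x0, hx0, hmin⟩ := exists_min_image _ F hne'
      refine ⟨F x0, fun x => ?_⟩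
      rw [hi]
      constructor
      · intro h
        exact hacc o ((hF' x0 x).2 h) (mem_filter.1 hx0).2
      · intro h
        exact hmin x (mem_filter.2 ⟨mem_univ _, h⟩)
    · obtain ⟨x1, -, hmax⟩ := exists_max_image (univ : Finset (Pairs n → Bool)) F
        ⟨fun _ => true, mem_univ _⟩
      refine ⟨F x1 + 1, fun x => ?_⟩
      rw [hi]
      constructor
      · intro h
        have := hmax x (mem_univ _)
        linarith
      · intro h
        exact absurd ⟨x, h⟩ hne
  choose i τ hiτ using key
  refine ⟨C, fun o => ⟨i o, τ o, neg o⟩, fun j _ => Or.inl (c2 j), ?_, ?_, fun o x => ?_⟩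
  · unfold Circuit.size
    rw [c1, sum_empty, add_zero, c3, g2]
  · unfold Circuit.freedom
    rw [c1]
    simp
  · unfold Output.bit
    simp only [hiτ]

/-- From the output bits of the circuit on the inputs in which the edges of a graph are known to be
present and nothing is known about the other pairs it can be seen, in some way, whether the known
edges contain a clique with `k` vertices. `O` is the set of the output bits; the output bit `o` says
whether the value of the gate `out o` belongs to the upper set `acc o`. -/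
def Sees {n : ℕ} {D : Type} [PartialOrder D] (k : ℕ) (O : Type)
    (l : List (Know (Pairs n) → D)) : Prop :=
  ∃ (out : O → Know (Pairs n) → D) (acc : O → Set D) (L : Set (O → Prop)), (∀ o, out o ∈ l) ∧
    (∀ o, IsUpperSet (acc o)) ∧ ∀ x : Pairs n → Bool,
      ((fun o => out o (truths (ed x)) ∈ acc o) ∈ L ↔ ¬ (grf x).CliqueFree k)

open Classical in
/-- The circuit is a truth-table reduction, with `q` questions, of the clique problem to the
satisfiability of formulas with `v` variables and with clauses of at most `d` literals: the clause `c`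
belongs to the `i`-th formula if the value of the gate `out i c` is in the upper set `acc i c` or, if
`neg i c` is true, if it is not in this set. On the inputs in which the edges of a graph are known to
be present and nothing is known about the other pairs the answer, an arbitrary function `ev` of the
answers to the questions which formulas are satisfiable, tells whether the known edges contain a
clique with `k` vertices. -/
def Reduces' {n : ℕ} {D : Type} [PartialOrder D] (k q v d : ℕ)
    (l : List (Know (Pairs n) → D)) : Prop :=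
  ∃ (out : Fin q → Clause v d → Know (Pairs n) → D) (acc : Fin q → Clause v d → Set D)
    (neg : Fin q → Clause v d → Bool) (ev : (Fin q → Prop) → Prop), (∀ i c, out i c ∈ l) ∧
    (∀ i c, IsUpperSet (acc i c)) ∧ ∀ x : Pairs n → Bool,
      (ev (fun i => Sat fun c => xor (neg i c) (decide (out i c (truths (ed x)) ∈ acc i c))) ↔
        ¬ (grf x).CliqueFree k)

/-- compression of the clique problem -/
theorem compress (ε : ℝ) (hε : 0 < ε) (hε1 : ε < 1) (k : ℕ) (hk : 2 * 10 ^ 13 ≤ k) :
    ∃ n₀ : ℕ, ∀ n : ℕ, n₀ ≤ n → ∀ (D : Type) [PartialOrder D], TreeLike D →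
      ∀ (O : Type) [Fintype O] (l : List (Know (Pairs n) → D)), Circ l → Sees k O l →
      ((l.length + Fintype.card O + 1 : ℕ) : ℝ) ≤ (n : ℝ) ^ (ε * k / (2 * 10 ^ 15)) →
      (n : ℝ) ^ (2 - ε) < Fintype.card O + 1 := by
  classical
  obtain ⟨n0, h⟩ := clique_lower ε hε hε1 2 k le_rfl (by omega)
  refine ⟨max n0 1, fun n hn D _ hD O _ l hl hs hsize => ?_⟩
  obtain ⟨out, acc, L, h1, h2, h3⟩ := hs
  obtain ⟨C, out', hC, hCs, hCf, hbit⟩ := sim_outputs hD hl out h1 acc h2 (fun _ => false)
  have hn1 : (1 : ℝ) ≤ n := by exact_mod_cast (le_max_right _ _).trans hn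
  have hlow := h n ((le_max_left _ _).trans hn) 0 0 (by push_cast; positivity)
    (by push_cast; positivity)
  have hred : Reduces C out' {y | (fun o => y o = true) ∈ L}
      (fun x => ¬ (grf x).CliqueFree k) (fun x => (grf x).CliqueFree k) := by
    intro x
    have e1 : (fun o => (out' o).bit x = true) = fun o => out o (truths (ed x)) ∈ acc o := by
      funext o
      rw [hbit]
      simp
    refine ⟨fun hx => ?_, fun hx hL => ?_⟩
    · show (fun o => (out' o).bit x = true) ∈ L
      rw [e1]
      exact (h3 x).2 hx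
    · change (fun o => (out' o).bit x = true) ∈ L at hL
      rw [e1] at hL
      exact (h3 x).1 hL hx
  have h4 := hlow.reduces C out' _ hC hred (by
    rw [hCs]
    have e2 : (10 : ℝ) ^ 15 * ((2 : ℕ) : ℝ) = 2 * 10 ^ 15 := by norm_num
    rw [e2]
    exact hsize)
  rw [hCf, mul_one] at h4
  exact_mod_cast h4

/-- no reductions to short formulas -/
theorem no_reduction (ε : ℝ) (hε : 0 < ε) (hε1 : ε < 1) (f g : ℕ → ℕ) (c d : ℕ) :
    ∀ᶠ k : ℕ in atTop, ∀ᶠ n : ℕ in atTop, ∀ (D : Type) [PartialOrder D], TreeLike D →
      ∀ (q v : ℕ) (l : List (Know (Pairs n) → D)), v ≤ g k * (Nat.log 2 (f k * n ^ c) + 1) →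
      l.length ≤ f k * n ^ c → Circ l → Reduces' k q v d l → (n : ℝ) ^ (2 - ε) < q + 1 := by
  classical
  have h1 : Tendsto (fun k : ℕ => (k : ℝ)) atTop atTop := tendsto_natCast_atTop_atTop
  have hgen := m1_general (P := Pairs) (Yes := fun k n x => ¬ (grf x).CliqueFree k)
    (No := fun k n x => (grf x).CliqueFree k) (b := 2) (e := 2) (ε := ε) (η := ε / 126)
    (σ := fun k => ε / 2 * k / (10 ^ 15 * 2)) (μ := fun k => ε / 2 * k / 10 ^ 15)
    (by norm_num) hε
    ((h1.const_mul_atTop (r := ε / 2 / (10 ^ 15 * 2)) (by positivity)).congr fun k => by ring)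
    ((h1.const_mul_atTop (r := ε / 2 / 10 ^ 15) (by positivity)).congr fun k => by ring)
    (by
      filter_upwards [eventually_ge_atTop (2 * 10 ^ 13)] with k hk
      obtain ⟨n0, h⟩ := clique_lower (ε / 2) (by linarith) (by linarith) 2 k le_rfl (by omega)
      refine ⟨n0, fun n hn m D hm hD => ?_⟩
      have := h n hn m D hm (by rwa [show ε / 2 / 63 = ε / 126 by ring])
      push_cast at this
      exact this) f g c d
  filter_upwards [hgen] with k hk
  filter_upwards [hk, eventually_ge_atTop 1] with n hn hn1 D _ hD q v l hv hlen hl hs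
  obtain ⟨out, acc, neg, ev, a1, a2, a3⟩ := hs
  obtain ⟨C, out', hC, hCs, hCf, hbit⟩ := sim_outputs hD hl
    (fun p : Fin q × Clause v d => out p.1 p.2) (fun p => a1 p.1 p.2) (fun p => acc p.1 p.2)
    (fun p => a2 p.1 p.2) (fun p => neg p.1 p.2)
  have h5 := hn q v 0 0 C out' ev hv (Nat.zero_le _) (by push_cast; positivity) hC
    (by rw [hCs]; exact hlen) (by
      intro x
      have e1 : ((fun o => (out' o).bit x) ∈ Questions ev) ↔ ¬ (grf x).CliqueFree k := by
        rw [← a3 x]
        unfold Questions
        rw [Set.mem_setOf_eq]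
        simp only [hbit]
      exact ⟨fun hx => e1.2 hx, fun hx hL => e1.1 hL hx⟩)
  rw [hCf, mul_one] at h5
  exact_mod_cast h5

/-- all edges as output bits -/
theorem trivial_sees (n k : ℕ) {D : Type} [PartialOrder D] {a b : D} (hab : a < b) :
    ∃ l : List (Know (Pairs n) → D), Circ l ∧ l.length = n.choose 2 ∧ Sees k (Pairs n) l := by
  classical
  have hba : ¬ b ≤ a := not_le_of_gt hab
  have key : ∀ L : List (Pairs n),
      Circ (L.map (fun e (P : Know (Pairs n)) => if P e = some true then b else a)) := by
    intro L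
    induction L with
    | nil => exact Circ.nil
    | cons e L ih =>
      refine Circ.input e (fun o => if o = some true then b else a) ih ?_
      intro o
      rw [if_neg (by simp)]
      split_ifs
      · exact hab.le
      · exact le_rfl
  refine ⟨_, key (univ : Finset (Pairs n)).toList, ?_, fun e P => if P e = some true then b else a,
    fun _ => {y | b ≤ y}, {y | ¬ (grf (fun e => decide (y e))).CliqueFree k}, fun e => ?_,
    fun _ x y hxy hx => le_trans hx hxy, fun x => ?_⟩
  · rw [List.length_map, Finset.length_toList, card_univ]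
    have : Fintype.card (Pairs n) = (powersetCard 2 (univ : Finset (Fin n))).card := by
      rw [Fintype.card_subtype]
      congr 1
      ext s
      simp
    rw [this, card_powersetCard, card_univ, Fintype.card_fin]
  · exact List.mem_map.2 ⟨e, Finset.mem_toList.2 (mem_univ e), rfl⟩
  · rw [Set.mem_setOf_eq]
    have e1 : (fun e : Pairs n => decide ((if (truths (ed x)) e = some true then b else a) ∈
        {y | b ≤ y})) = x := by
      funext e
      unfold truths ed
      by_cases hx : x e = true
      · simp [hx]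
      · simp [hx, hba]
    rw [e1]

end Pool.Agent.H698.UM
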